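import Mathlib

/-!
# The pinwheel lemma

For a finite set `B` of integer points and parameters `f g` a point `z ∉ B` is good if four inequalities
between its coordinates and the numbers of points of `B` to the north, south, east, west of it hold.
There are always two good points.
-/

set_option autoImplicit false

namespace PoolAgent.Helper45.PW

open Finset

/-- points of `B` straight above `z` -/
def cN (B : Finset (ℤ × ℤ)) (z : ℤ × ℤ) : ℤ := ((B.filter (fun b => b.1 = z.1 ∧ z.2 < b.2)).card : ℤ)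

/-- points of `B` straight below `z` -/
def cS (B : Finset (ℤ × ℤ)) (z : ℤ × ℤ) : ℤ := ((B.filter (fun b => b.1 = z.1 ∧ b.2 < z.2)).card : ℤ)

/-- points of `B` straight to the right of `z` -/
def cE (B : Finset (ℤ × ℤ)) (z : ℤ × ℤ) : ℤ := ((B.filter (fun b => b.2 = z.2 ∧ z.1 < b.1)).card : ℤ)

/-- points of `B` straight to the left of `z` -/
def cW (B : Finset (ℤ × ℤ)) (z : ℤ × ℤ) : ℤ := ((B.filter (fun b => b.2 = z.2 ∧ b.1 < z.1)).card : ℤ)

/-- number of points of `B` in the column `c` -/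
def col (B : Finset (ℤ × ℤ)) (c : ℤ) : ℤ := ((B.filter (fun b => b.1 = c)).card : ℤ)

/-- number of points of `B` in the row `y` -/
def row (B : Finset (ℤ × ℤ)) (y : ℤ) : ℤ := ((B.filter (fun b => b.2 = y)).card : ℤ)

lemma cN_nonneg (B : Finset (ℤ × ℤ)) (z : ℤ × ℤ) : 0 ≤ cN B z := by unfold cN; positivity
lemma cS_nonneg (B : Finset (ℤ × ℤ)) (z : ℤ × ℤ) : 0 ≤ cS B z := by unfold cS; positivity
lemma cE_nonneg (B : Finset (ℤ × ℤ)) (z : ℤ × ℤ) : 0 ≤ cE B z := by unfold cE; positivity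
lemma cW_nonneg (B : Finset (ℤ × ℤ)) (z : ℤ × ℤ) : 0 ≤ cW B z := by unfold cW; positivity

/-- The four slack quantities. -/
def sF (f : ℤ) (B : Finset (ℤ × ℤ)) (z : ℤ × ℤ) : ℤ := cS B z + cE B z - z.1 - z.2 + f
def sG (g : ℤ) (B : Finset (ℤ × ℤ)) (z : ℤ × ℤ) : ℤ := cS B z + cW B z - z.1 + z.2 + g
def sH (g : ℤ) (B : Finset (ℤ × ℤ)) (z : ℤ × ℤ) : ℤ := cN B z + cE B z + z.1 - z.2 + (1 - g)
def sK (f : ℤ) (B : Finset (ℤ × ℤ)) (z : ℤ × ℤ) : ℤ := cN B z + cW B z + z.1 + z.2 + (1 - f)

/-- The four inequalities. -/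
def ok (f g : ℤ) (B : Finset (ℤ × ℤ)) (z : ℤ × ℤ) : Prop :=
  0 ≤ sF f B z ∧ 0 ≤ sG g B z ∧ 0 ≤ sH g B z ∧ 0 ≤ sK f B z

/-- Good points. -/
def good (f g : ℤ) (B : Finset (ℤ × ℤ)) (z : ℤ × ℤ) : Prop := z ∉ B ∧ ok f g B z

/-! ### Erasing a point -/

lemma card_filter_erase_le (B : Finset (ℤ × ℤ)) (b : ℤ × ℤ) (P : ℤ × ℤ → Prop) [DecidablePred P] :
    (((B.erase b).filter P).card : ℤ) ≤ ((B.filter P).card : ℤ) := by
  exact_mod_cast Finset.card_le_card (Finset.filter_subset_filter _ (Finset.erase_subset _ _))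

lemma card_filter_erase_of_not (B : Finset (ℤ × ℤ)) (b : ℤ × ℤ) (P : ℤ × ℤ → Prop) [DecidablePred P]
    (h : ¬ P b) : (((B.erase b).filter P).card : ℤ) = ((B.filter P).card : ℤ) := by
  congr 2
  ext x
  simp only [Finset.mem_filter, Finset.mem_erase]
  constructor
  · rintro ⟨⟨_, h1⟩, h2⟩
    exact ⟨h1, h2⟩
  · rintro ⟨h1, h2⟩
    refine ⟨⟨?_, h1⟩, h2⟩
    rintro rfl
    exact h h2

lemma card_filter_erase_of_mem (B : Finset (ℤ × ℤ)) (b : ℤ × ℤ) (P : ℤ × ℤ → Prop) [DecidablePred P]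
    (hb : b ∈ B) (h : P b) : (((B.erase b).filter P).card : ℤ) + 1 = ((B.filter P).card : ℤ) := by
  have h1 : (B.erase b).filter P = (B.filter P).erase b := by
    ext x
    simp only [Finset.mem_filter, Finset.mem_erase]
    tauto
  rw [h1]
  have := Finset.card_erase_add_one (s := B.filter P) (a := b) (by simp [hb, h])
  exact_mod_cast this

lemma ok_of_erase (f g : ℤ) (B : Finset (ℤ × ℤ)) (b z : ℤ × ℤ) (h : ok f g (B.erase b) z) : ok f g B z := by
  obtain ⟨h1, h2, h3, h4⟩ := h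
  have e1 : cN (B.erase b) z ≤ cN B z := card_filter_erase_le B b _
  have e2 : cS (B.erase b) z ≤ cS B z := card_filter_erase_le B b _
  have e3 : cE (B.erase b) z ≤ cE B z := card_filter_erase_le B b _
  have e4 : cW (B.erase b) z ≤ cW B z := card_filter_erase_le B b _
  unfold sF at h1; unfold sG at h2; unfold sH at h3; unfold sK at h4
  refine ⟨?_, ?_, ?_, ?_⟩
  · unfold sF; linarith
  · unfold sG; linarith
  · unfold sH; linarith
  · unfold sK; linarith

/-- An irreducible configuration: a minimal counterexample. -/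
structure Irr (f g : ℤ) (B : Finset (ℤ × ℤ)) : Prop where
  ne : B.Nonempty
  bad_ok : ∀ b ∈ B, ok f g B b
  gS : ∀ z, good f g B z → 1 ≤ cS B z → 1 ≤ sF f B z ∧ 1 ≤ sG g B z
  gE : ∀ z, good f g B z → 1 ≤ cE B z → 1 ≤ sF f B z ∧ 1 ≤ sH g B z
  gN : ∀ z, good f g B z → 1 ≤ cN B z → 1 ≤ sH g B z ∧ 1 ≤ sK f B z
  gW : ∀ z, good f g B z → 1 ≤ cW B z → 1 ≤ sG g B z ∧ 1 ≤ sK f B z
  uniq : ∀ z z', good f g B z → good f g B z' → z = z'

/-! ### Rotation -/

/-- rotation by 90 degrees -/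
def rot : (ℤ × ℤ) ≃ (ℤ × ℤ) where
  toFun z := (-z.2, z.1)
  invFun z := (z.2, -z.1)
  left_inv z := by ext <;> simp
  right_inv z := by ext <;> simp

/-- the rotated set -/
def rotS (B : Finset (ℤ × ℤ)) : Finset (ℤ × ℤ) := B.map rot.toEmbedding

lemma card_filter_rotS (B : Finset (ℤ × ℤ)) (P Q : ℤ × ℤ → Prop) [DecidablePred P] [DecidablePred Q]
    (h : ∀ b, P (rot b) ↔ Q b) : (((rotS B).filter P).card : ℤ) = ((B.filter Q).card : ℤ) := by
  unfold rotS
  rw [Finset.filter_map, Finset.card_map]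
  congr 2
  ext b
  simp only [Finset.mem_filter, Function.comp]
  exact and_congr_right fun _ => h b

lemma cN_rot (B : Finset (ℤ × ℤ)) (z : ℤ × ℤ) : cN (rotS B) (rot z) = cE B z := by
  unfold cN cE
  apply card_filter_rotS
  intro b
  simp only [rot, Equiv.coe_fn_mk]
  constructor <;> rintro ⟨h1, h2⟩ <;> constructor <;> omega

lemma cS_rot (B : Finset (ℤ × ℤ)) (z : ℤ × ℤ) : cS (rotS B) (rot z) = cW B z := by
  unfold cS cW
  apply card_filter_rotS
  intro b
  simp only [rot, Equiv.coe_fn_mk]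
  constructor <;> rintro ⟨h1, h2⟩ <;> constructor <;> omega

lemma cE_rot (B : Finset (ℤ × ℤ)) (z : ℤ × ℤ) : cE (rotS B) (rot z) = cS B z := by
  unfold cE cS
  apply card_filter_rotS
  intro b
  simp only [rot, Equiv.coe_fn_mk]
  constructor <;> rintro ⟨h1, h2⟩ <;> constructor <;> omega

lemma cW_rot (B : Finset (ℤ × ℤ)) (z : ℤ × ℤ) : cW (rotS B) (rot z) = cN B z := by
  unfold cW cN
  apply card_filter_rotS
  intro b
  simp only [rot, Equiv.coe_fn_mk]
  constructor <;> rintro ⟨h1, h2⟩ <;> constructor <;> omega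

lemma col_rot (B : Finset (ℤ × ℤ)) (c : ℤ) : col (rotS B) c = row B (-c) := by
  unfold col row
  apply card_filter_rotS
  intro b
  simp only [rot, Equiv.coe_fn_mk]
  constructor <;> intro h <;> omega

lemma row_rot (B : Finset (ℤ × ℤ)) (c : ℤ) : row (rotS B) c = col B c := by
  unfold col row
  apply card_filter_rotS
  intro b
  simp only [rot, Equiv.coe_fn_mk]

lemma mem_rotS (B : Finset (ℤ × ℤ)) (z : ℤ × ℤ) : rot z ∈ rotS B ↔ z ∈ B := by
  unfold rotS
  rw [Finset.mem_map_equiv]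
  simp

lemma sF_rot (g : ℤ) (B : Finset (ℤ × ℤ)) (z : ℤ × ℤ) : sF g (rotS B) (rot z) = sG g B z := by
  unfold sF sG
  rw [cS_rot, cE_rot]
  simp only [rot, Equiv.coe_fn_mk]
  ring

lemma sG_rot (f : ℤ) (B : Finset (ℤ × ℤ)) (z : ℤ × ℤ) : sG (1 - f) (rotS B) (rot z) = sK f B z := by
  unfold sG sK
  rw [cS_rot, cW_rot]
  simp only [rot, Equiv.coe_fn_mk]
  ring

lemma sH_rot (f : ℤ) (B : Finset (ℤ × ℤ)) (z : ℤ × ℤ) : sH (1 - f) (rotS B) (rot z) = sF f B z := by
  unfold sH sF
  rw [cN_rot, cE_rot]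
  simp only [rot, Equiv.coe_fn_mk]
  ring

lemma sK_rot (g : ℤ) (B : Finset (ℤ × ℤ)) (z : ℤ × ℤ) : sK g (rotS B) (rot z) = sH g B z := by
  unfold sK sH
  rw [cN_rot, cW_rot]
  simp only [rot, Equiv.coe_fn_mk]
  ring

lemma ok_rot (f g : ℤ) (B : Finset (ℤ × ℤ)) (z : ℤ × ℤ) : ok g (1 - f) (rotS B) (rot z) ↔ ok f g B z := by
  unfold ok
  rw [sF_rot g, sG_rot, sH_rot, sK_rot]
  tauto

lemma good_rot (f g : ℤ) (B : Finset (ℤ × ℤ)) (z : ℤ × ℤ) :
    good g (1 - f) (rotS B) (rot z) ↔ good f g B z := by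
  unfold good
  rw [mem_rotS, ok_rot]

lemma Irr.rotate {f g : ℤ} {B : Finset (ℤ × ℤ)} (h : Irr f g B) : Irr g (1 - f) (rotS B) := by
  have hz : ∀ z : ℤ × ℤ, ∃ z', z = rot z' := fun z => ⟨rot.symm z, (rot.apply_symm_apply z).symm⟩
  refine ⟨?_, ?_, ?_, ?_, ?_, ?_, ?_⟩
  · exact Finset.map_nonempty.2 h.ne
  · intro b hb
    obtain ⟨b', rfl⟩ := hz b
    rw [mem_rotS] at hb
    rw [ok_rot]
    exact h.bad_ok b' hb
  · intro z hgz h1
    obtain ⟨z', rfl⟩ := hz z
    rw [good_rot] at hgz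
    rw [cS_rot] at h1
    rw [sF_rot g, sG_rot]
    exact h.gW z' hgz h1
  · intro z hgz h1
    obtain ⟨z', rfl⟩ := hz z
    rw [good_rot] at hgz
    rw [cE_rot] at h1
    rw [sF_rot g, sH_rot]
    exact ⟨(h.gS z' hgz h1).2, (h.gS z' hgz h1).1⟩
  · intro z hgz h1
    obtain ⟨z', rfl⟩ := hz z
    rw [good_rot] at hgz
    rw [cN_rot] at h1
    rw [sH_rot, sK_rot]
    exact h.gE z' hgz h1
  · intro z hgz h1
    obtain ⟨z', rfl⟩ := hz z
    rw [good_rot] at hgz
    rw [cW_rot] at h1
    rw [sG_rot, sK_rot]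
    exact ⟨(h.gN z' hgz h1).2, (h.gN z' hgz h1).1⟩
  · intro z z' h1 h2
    obtain ⟨w, rfl⟩ := hz z
    obtain ⟨w', rfl⟩ := hz z'
    rw [good_rot] at h1 h2
    rw [h.uniq w w' h1 h2]

/-! ### Two neighbouring rows -/

/-- the partial row count -/
def pr (B : Finset (ℤ × ℤ)) (y x : ℤ) : ℤ := ((B.filter (fun b => b.2 = y ∧ b.1 < x)).card : ℤ)

lemma pr_eq_cW (B : Finset (ℤ × ℤ)) (x y : ℤ) : pr B y x = cW B (x, y) := rfl

lemma pr_succ_mem (B : Finset (ℤ × ℤ)) (x y : ℤ) (h : (x, y) ∈ B) : pr B y (x + 1) = pr B y x + 1 := by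
  unfold pr
  have h1 : B.filter (fun b => b.2 = y ∧ b.1 < x + 1) =
      insert (x, y) (B.filter (fun b => b.2 = y ∧ b.1 < x)) := by
    ext ⟨u, v⟩
    simp only [Finset.mem_filter, Finset.mem_insert, Prod.mk.injEq]
    constructor
    · rintro ⟨h1, h2, h3⟩
      by_cases hu : u = x
      · left; exact ⟨hu, h2⟩
      · right; exact ⟨h1, h2, by omega⟩
    · rintro (⟨h1, h2⟩ | ⟨h1, h2, h3⟩)
      · subst h1; subst h2; exact ⟨h, rfl, by omega⟩
      · exact ⟨h1, h2, by omega⟩
  rw [h1, Finset.card_insert_of_notMem]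
  · push_cast; ring
  · simp

lemma pr_succ_notMem (B : Finset (ℤ × ℤ)) (x y : ℤ) (h : (x, y) ∉ B) : pr B y (x + 1) = pr B y x := by
  unfold pr
  congr 2
  ext ⟨u, v⟩
  simp only [Finset.mem_filter]
  constructor
  · rintro ⟨h1, h2, h3⟩
    refine ⟨h1, h2, ?_⟩
    by_contra h4
    have : u = x := by omega
    subst this; subst h2
    exact h h1
  · rintro ⟨h1, h2, h3⟩
    exact ⟨h1, h2, by omega⟩

lemma pr_low (B : Finset (ℤ × ℤ)) : ∃ L : ℤ, ∀ x y : ℤ, x ≤ L → pr B y x = 0 := by
  obtain ⟨L, hL⟩ : ∃ L : ℤ, ∀ b ∈ B, L ≤ b.1 := by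
    rcases B.eq_empty_or_nonempty with h | h
    · exact ⟨0, by simp [h]⟩
    · obtain ⟨b, hb, hmin⟩ := Finset.exists_min_image B (fun b => b.1) h
      exact ⟨b.1, hmin⟩
  refine ⟨L, fun x y hx => ?_⟩
  unfold pr
  rw [Finset.filter_eq_empty_iff.2]
  · simp
  · rintro b hb ⟨_, h2⟩
    have := hL b hb
    omega

lemma pr_high (B : Finset (ℤ × ℤ)) : ∃ U : ℤ, ∀ x y : ℤ, U ≤ x → pr B y x = row B y := by
  obtain ⟨U, hU⟩ : ∃ U : ℤ, ∀ b ∈ B, b.1 < U := by
    rcases B.eq_empty_or_nonempty with h | h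
    · exact ⟨0, by simp [h]⟩
    · obtain ⟨b, hb, hmax⟩ := Finset.exists_max_image B (fun b => b.1) h
      exact ⟨b.1 + 1, fun b' hb' => by have := hmax b' hb'; omega⟩
  refine ⟨U, fun x y hx => ?_⟩
  unfold pr row
  congr 2
  apply Finset.filter_congr
  intro b hb
  have := hU b hb
  constructor
  · rintro ⟨h1, _⟩; exact h1
  · intro h1; exact ⟨h1, by omega⟩

/-- Discrete intermediate value theorem. -/
lemma ivt (Δ : ℤ → ℤ) (L U : ℤ) (hL : Δ L ≤ 0) (hU : 2 ≤ Δ U) (hLU : L ≤ U)
    (hs : ∀ x, Δ (x + 1) ≤ Δ x + 1) (k : ℤ) (hk0 : 0 ≤ k) (hk1 : k ≤ 1) :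
    ∃ x, Δ x = k ∧ Δ (x + 1) = k + 1 := by
  -- the last x in [L, U) with Δ x ≤ k
  have hex : ∃ t : ℕ, k + 1 ≤ Δ (L + t) := ⟨(U - L).toNat, by
    rw [Int.toNat_of_nonneg (by omega)]
    have : L + (U - L) = U := by ring
    rw [this]; omega⟩
  classical
  have hspec := Nat.find_spec hex
  have hmin := fun m (hm : m < Nat.find hex) => Nat.find_min hex hm
  have hpos : 0 < Nat.find hex := by
    rw [Nat.pos_iff_ne_zero]
    intro h0
    rw [h0] at hspec
    simp only [Nat.cast_zero, add_zero] at hspec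
    omega
  have h1 := hmin (Nat.find hex - 1) (by omega)
  rw [not_le] at h1
  have hcast : ((Nat.find hex - 1 : ℕ) : ℤ) = (Nat.find hex : ℤ) - 1 := by omega
  rw [hcast] at h1
  have h2 := hs (L + ((Nat.find hex : ℤ) - 1))
  have e : L + ((Nat.find hex : ℤ) - 1) + 1 = L + (Nat.find hex : ℤ) := by ring
  rw [e] at h2
  refine ⟨L + ((Nat.find hex : ℤ) - 1), ?_, ?_⟩
  · omega
  · rw [e]; omega

lemma row_split_mem (B : Finset (ℤ × ℤ)) (z : ℤ × ℤ) (h : z ∈ B) : row B z.2 = cW B z + cE B z + 1 := by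
  unfold row cW cE
  have h1 : B.filter (fun b => b.2 = z.2) = insert z (B.filter (fun b => b.2 = z.2 ∧ b.1 < z.1) ∪
      B.filter (fun b => b.2 = z.2 ∧ z.1 < b.1)) := by
    ext ⟨u, v⟩
    simp only [Finset.mem_filter, Finset.mem_insert, Finset.mem_union]
    constructor
    · rintro ⟨h1, h2⟩
      rcases lt_trichotomy u z.1 with h3 | h3 | h3
      · right; left; exact ⟨h1, h2, h3⟩
      · left; exact Prod.ext h3 h2
      · right; right; exact ⟨h1, h2, h3⟩
    · rintro (h1 | ⟨h1, h2, h3⟩ | ⟨h1, h2, h3⟩)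
      · subst h1; exact ⟨h, rfl⟩
      · exact ⟨h1, h2⟩
      · exact ⟨h1, h2⟩
  rw [h1, Finset.card_insert_of_notMem, Finset.card_union_of_disjoint]
  · push_cast; ring
  · rw [Finset.disjoint_left]
    intro x hx hx'
    simp only [Finset.mem_filter] at hx hx'
    omega
  · simp

lemma row_split_notMem (B : Finset (ℤ × ℤ)) (z : ℤ × ℤ) (h : z ∉ B) : row B z.2 = cW B z + cE B z := by
  unfold row cW cE
  have h1 : B.filter (fun b => b.2 = z.2) = B.filter (fun b => b.2 = z.2 ∧ b.1 < z.1) ∪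
      B.filter (fun b => b.2 = z.2 ∧ z.1 < b.1) := by
    ext ⟨u, v⟩
    simp only [Finset.mem_filter, Finset.mem_union]
    constructor
    · rintro ⟨h1, h2⟩
      rcases lt_trichotomy u z.1 with h3 | h3 | h3
      · left; exact ⟨h1, h2, h3⟩
      · exact absurd h1 (by
          have : (u, v) = z := Prod.ext h3 h2
          rw [this]; exact h)
      · right; exact ⟨h1, h2, h3⟩
    · rintro (⟨h1, h2, h3⟩ | ⟨h1, h2, h3⟩)
      · exact ⟨h1, h2⟩
      · exact ⟨h1, h2⟩
  rw [h1, Finset.card_union_of_disjoint]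
  · push_cast; ring
  · rw [Finset.disjoint_left]
    intro x hx hx'
    simp only [Finset.mem_filter] at hx hx'
    omega

lemma cS_step (B : Finset (ℤ × ℤ)) (x y : ℤ) (h : (x, y - 1) ∈ B) : cS B (x, y) = cS B (x, y - 1) + 1 := by
  unfold cS
  have h1 : B.filter (fun b => b.1 = (x, y).1 ∧ b.2 < (x, y).2) =
      insert (x, y - 1) (B.filter (fun b => b.1 = (x, y - 1).1 ∧ b.2 < (x, y - 1).2)) := by
    ext ⟨u, v⟩
    simp only [Finset.mem_filter, Finset.mem_insert, Prod.mk.injEq]
    constructor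
    · rintro ⟨h1, h2, h3⟩
      by_cases hu : v = y - 1
      · left; exact ⟨h2, hu⟩
      · right; exact ⟨h1, h2, by omega⟩
    · rintro (⟨h1, h2⟩ | ⟨h1, h2, h3⟩)
      · subst h1; subst h2; exact ⟨h, rfl, by omega⟩
      · exact ⟨h1, h2, by omega⟩
  rw [h1, Finset.card_insert_of_notMem]
  · push_cast; ring
  · simp

lemma cN_step (B : Finset (ℤ × ℤ)) (x y : ℤ) (h : (x, y) ∉ B) : cN B (x, y - 1) = cN B (x, y) := by
  unfold cN
  congr 2
  ext ⟨u, v⟩
  simp only [Finset.mem_filter]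
  constructor
  · rintro ⟨h1, h2, h3⟩
    refine ⟨h1, h2, ?_⟩
    by_contra h4
    have : v = y := by omega
    subst this; subst h2
    exact h h1
  · rintro ⟨h1, h2, h3⟩
    exact ⟨h1, h2, by omega⟩

/-- Below a short row there is no much longer row. -/
lemma short_step {f g : ℤ} {B : Finset (ℤ × ℤ)} (hI : Irr f g B) (Y : ℤ)
    (hshort : row B Y ≤ -2 * Y + f - g - 1) : row B (Y - 1) ≤ row B Y + 1 := by
  by_contra hcon
  rw [not_le] at hcon
  obtain ⟨L, hL⟩ := pr_low B
  obtain ⟨U, hU⟩ := pr_high B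
  set Δ : ℤ → ℤ := fun x => pr B (Y - 1) x - pr B Y x with hΔ
  have hstep : ∀ x, Δ (x + 1) ≤ Δ x + 1 := by
    intro x
    simp only [hΔ]
    have h1 : pr B (Y - 1) (x + 1) ≤ pr B (Y - 1) x + 1 := by
      by_cases h : (x, Y - 1) ∈ B
      · rw [pr_succ_mem B x (Y - 1) h]
      · rw [pr_succ_notMem B x (Y - 1) h]; omega
    have h2 : pr B Y x ≤ pr B Y (x + 1) := by
      by_cases h : (x, Y) ∈ B
      · rw [pr_succ_mem B x Y h]; omega
      · rw [pr_succ_notMem B x Y h]
    omega
  have hex : ∀ k : ℤ, 0 ≤ k → k ≤ 1 → ∃ x, Δ x = k ∧ good f g B (x, Y) := by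
    intro k hk0 hk1
    obtain ⟨x, hx1, hx2⟩ := ivt Δ (min L U) U
      (by simp only [hΔ]; rw [hL _ _ (min_le_left _ _), hL _ _ (min_le_left _ _)]; simp)
      (by simp only [hΔ]; rw [hU _ _ le_rfl, hU _ _ le_rfl]; omega)
      (min_le_right _ _) hstep k hk0 hk1
    have hw : (x, Y - 1) ∈ B := by
      by_contra h
      simp only [hΔ] at hx1 hx2
      rw [pr_succ_notMem B x (Y - 1) h] at hx2
      have h2 : pr B Y x ≤ pr B Y (x + 1) := by
        by_cases h' : (x, Y) ∈ B
        · rw [pr_succ_mem B x Y h']; omega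
        · rw [pr_succ_notMem B x Y h']
      omega
    have hz : (x, Y) ∉ B := by
      intro h
      simp only [hΔ] at hx1 hx2
      rw [pr_succ_mem B x (Y - 1) hw, pr_succ_mem B x Y h] at hx2
      omega
    refine ⟨x, hx1, hz, ?_⟩
    simp only [hΔ, pr_eq_cW] at hx1
    have hokw := hI.bad_ok _ hw
    have e1 := cS_step B x Y hw
    have e2 := cN_step B x Y hz
    have e3 := row_split_notMem B _ hz
    simp only at e3
    have e4 := cE_nonneg B (x, Y)
    obtain ⟨g1, g2, g3, g4⟩ := hokw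
    unfold sF at g1; unfold sG at g2; unfold sH at g3; unfold sK at g4
    simp only at g1 g2 g3 g4
    have G1 : 0 ≤ sG g B (x, Y) := by
      unfold sG; simp only; omega
    have K1 : 0 ≤ sK f B (x, Y) := by
      unfold sK; simp only; omega
    refine ⟨?_, G1, ?_, K1⟩
    · unfold sG at G1; unfold sF; simp only at G1 ⊢; omega
    · unfold sK at K1; unfold sH; simp only at K1 ⊢; omega
  obtain ⟨x0, h01, h02⟩ := hex 0 le_rfl (by norm_num)
  obtain ⟨x1, h11, h12⟩ := hex 1 (by norm_num) le_rfl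
  have := hI.uniq _ _ h02 h12
  have hx : x0 = x1 := congrArg Prod.fst this
  rw [hx] at h01
  omega

lemma short_below {f g : ℤ} {B : Finset (ℤ × ℤ)} (hI : Irr f g B) (Y : ℤ)
    (hshort : row B Y ≤ -2 * Y + f - g - 1) (t : ℕ) : row B (Y - t) ≤ -2 * (Y - t) + f - g - 1 := by
  induction t with
  | zero => simpa using hshort
  | succ t ih =>
    have h := short_step hI (Y - t) ih
    have e : Y - ((t + 1 : ℕ) : ℤ) = Y - t - 1 := by push_cast; ring
    rw [e]
    omega

/-- Lemma A: the right column is long. -/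
lemma col_right {f g : ℤ} {B : Finset (ℤ × ℤ)} (hI : Irr f g B) (c : ℤ) (hc : ∃ b ∈ B, b.1 = c)
    (hmax : ∀ b ∈ B, b.1 ≤ c) : 2 * c + 2 - f - g ≤ col B c := by
  by_contra hcon
  rw [not_le] at hcon
  set n := col B c with hn
  -- no points to the right of column c
  have hE0 : ∀ y, cE B (c, y) = 0 := by
    intro y
    unfold cE
    rw [Finset.filter_eq_empty_iff.2]
    · simp
    · rintro b hb ⟨_, h2⟩
      have := hmax b hb
      simp only at h2
      omega
  have hn1 : 1 ≤ n := by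
    obtain ⟨b, hb, hbc⟩ := hc
    rw [hn]
    unfold col
    have : 0 < (B.filter (fun b => b.1 = c)).card := Finset.card_pos.2 ⟨b, by simp [hb, hbc]⟩
    omega
  -- column points are low
  have hlow : ∀ b ∈ B, b.1 = c → b.2 ≤ n - 1 - c + f := by
    intro b hb hbc
    obtain ⟨g1, _, _, _⟩ := hI.bad_ok b hb
    unfold sF at g1
    have hb' : b = (c, b.2) := Prod.ext hbc rfl
    have hE : cE B b = 0 := by rw [hb']; exact hE0 _
    have hS : cS B b + 1 ≤ n := by
      rw [hn]
      unfold cS col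
      have h1 : (insert b (B.filter (fun b' => b'.1 = b.1 ∧ b'.2 < b.2))) ⊆ B.filter (fun b => b.1 = c) := by
        intro x hx
        rw [Finset.mem_insert] at hx
        simp only [Finset.mem_filter] at hx ⊢
        rcases hx with rfl | ⟨h1, h2, _⟩
        · exact ⟨hb, hbc⟩
        · exact ⟨h1, by omega⟩
      have h2 := Finset.card_le_card h1
      rw [Finset.card_insert_of_notMem (by simp)] at h2
      exact_mod_cast h2
    rw [hE] at g1
    omega
  -- the point U
  have hUshort : row B (n - c + f) ≤ -2 * (n - c + f) + f - g - 1 := by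
    have hUB : (c, n - c + f) ∉ B := by
      intro h
      have := hlow _ h rfl
      simp only at this
      omega
    have hN : cN B (c, n - c + f) = 0 := by
      unfold cN
      rw [Finset.filter_eq_empty_iff.2]
      · simp
      · rintro b hb ⟨h1, h2⟩
        simp only at h1 h2
        have := hlow b hb h1
        omega
    have hS : cS B (c, n - c + f) = n := by
      conv_rhs => rw [hn]
      unfold cS
      show _ = ((B.filter (fun b => b.1 = c)).card : ℤ)
      congr 2
      apply Finset.filter_congr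
      intro b hb
      simp only
      constructor
      · rintro ⟨h1, _⟩; exact h1
      · intro h1
        have := hlow b hb h1
        exact ⟨h1, by omega⟩
    have hE := hE0 (n - c + f)
    have hR := row_split_notMem B _ hUB
    simp only at hR
    have hW0 := cW_nonneg B (c, n - c + f)
    by_contra hlong
    rw [not_le] at hlong
    have hgood : good f g B (c, n - c + f) := by
      refine ⟨hUB, ?_, ?_, ?_, ?_⟩
      · unfold sF; simp only; omega
      · unfold sG; simp only; omega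
      · unfold sH; simp only; omega
      · unfold sK; simp only; omega
    have h1 := (hI.gS _ hgood (by omega)).1
    unfold sF at h1
    simp only at h1
    omega
  -- the lowest point of the column
  obtain ⟨b1, hb1, hb1min⟩ := Finset.exists_min_image (B.filter (fun b => b.1 = c)) (fun b => b.2)
    (by obtain ⟨b, hb, hbc⟩ := hc; exact ⟨b, by simp [hb, hbc]⟩)
  rw [Finset.mem_filter] at hb1
  obtain ⟨hb1B, hb1c⟩ := hb1
  have hb1' : b1 = (c, b1.2) := Prod.ext hb1c rfl
  have hb1low := hlow b1 hb1B hb1c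
  have hS1 : cS B b1 = 0 := by
    unfold cS
    rw [Finset.filter_eq_empty_iff.2]
    · simp
    · rintro b hb ⟨h1, h2⟩
      have := hb1min b (by simp [hb]; omega)
      omega
  have hE1 : cE B b1 = 0 := by rw [hb1']; exact hE0 _
  have hR1 := row_split_mem B b1 hb1B
  obtain ⟨_, gG, _, _⟩ := hI.bad_ok b1 hb1B
  unfold sG at gG
  set R := row B b1.2 with hRdef
  set y1 := b1.2 with hy1
  -- the point q
  have hqx : c + 1 ≤ R + y1 + g := by omega
  have hqB : (R + y1 + g, y1) ∉ B := by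
    intro h
    have := hmax _ h
    simp only at this
    omega
  have hqN : cN B (R + y1 + g, y1) = 0 := by
    unfold cN
    rw [Finset.filter_eq_empty_iff.2]
    · simp
    · rintro b hb ⟨h1, h2⟩
      have := hmax b hb
      simp only at h1
      omega
  have hqS : cS B (R + y1 + g, y1) = 0 := by
    unfold cS
    rw [Finset.filter_eq_empty_iff.2]
    · simp
    · rintro b hb ⟨h1, h2⟩
      have := hmax b hb
      simp only at h1
      omega
  have hqE : cE B (R + y1 + g, y1) = 0 := by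
    unfold cE
    rw [Finset.filter_eq_empty_iff.2]
    · simp
    · rintro b hb ⟨h1, h2⟩
      have := hmax b hb
      simp only at h2
      omega
  have hqR := row_split_notMem B _ hqB
  simp only at hqR
  have hlong : -2 * y1 + f - g + 1 ≤ R := by
    by_contra hs
    rw [not_le] at hs
    have hgood : good f g B (R + y1 + g, y1) := by
      refine ⟨hqB, ?_, ?_, ?_, ?_⟩
      · unfold sF; simp only; omega
      · unfold sG; simp only; omega
      · unfold sH; simp only
        have := cW_nonneg B b1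
        omega
      · unfold sK; simp only; omega
    have hW1 := cW_nonneg B b1
    have h1 := (hI.gW _ hgood (by omega)).1
    unfold sG at h1
    simp only at h1
    omega
  have hb := short_below hI (n - c + f) hUshort ((n - c + f) - y1).toNat
  rw [Int.toNat_of_nonneg (by omega)] at hb
  have e : n - c + f - (n - c + f - y1) = y1 := by ring
  rw [e] at hb
  omega

lemma row_bottom {f g : ℤ} {B : Finset (ℤ × ℤ)} (hI : Irr f g B) (y : ℤ) (hy : ∃ b ∈ B, b.2 = y)
    (hmin : ∀ b ∈ B, y ≤ b.2) : -2 * y + 1 + f - g ≤ row B y := by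
  have h := col_right hI.rotate (-y) ?_ ?_
  · rw [col_rot, neg_neg] at h
    omega
  · obtain ⟨b, hb, hby⟩ := hy
    refine ⟨rot b, (mem_rotS B b).2 hb, ?_⟩
    simp only [rot, Equiv.coe_fn_mk]
    omega
  · intro b hb
    obtain ⟨b', rfl⟩ : ∃ z', b = rot z' := ⟨rot.symm b, (rot.apply_symm_apply b).symm⟩
    rw [mem_rotS] at hb
    have := hmin b' hb
    simp only [rot, Equiv.coe_fn_mk]
    omega

lemma col_left {f g : ℤ} {B : Finset (ℤ × ℤ)} (hI : Irr f g B) (c : ℤ) (hc : ∃ b ∈ B, b.1 = c)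
    (hmin : ∀ b ∈ B, c ≤ b.1) : -2 * c + f + g ≤ col B c := by
  have h := row_bottom hI.rotate c ?_ ?_
  · rw [row_rot] at h
    omega
  · obtain ⟨b, hb, hby⟩ := hc
    refine ⟨rot b, (mem_rotS B b).2 hb, ?_⟩
    simp only [rot, Equiv.coe_fn_mk]
    omega
  · intro b hb
    obtain ⟨b', rfl⟩ : ∃ z', b = rot z' := ⟨rot.symm b, (rot.apply_symm_apply b).symm⟩
    rw [mem_rotS] at hb
    have := hmin b' hb
    simp only [rot, Equiv.coe_fn_mk]
    omega

lemma row_top {f g : ℤ} {B : Finset (ℤ × ℤ)} (hI : Irr f g B) (y : ℤ) (hy : ∃ b ∈ B, b.2 = y)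
    (hmax : ∀ b ∈ B, b.2 ≤ y) : 2 * y + 1 + g - f ≤ row B y := by
  have h := col_left hI.rotate (-y) ?_ ?_
  · rw [col_rot, neg_neg] at h
    omega
  · obtain ⟨b, hb, hby⟩ := hy
    refine ⟨rot b, (mem_rotS B b).2 hb, ?_⟩
    simp only [rot, Equiv.coe_fn_mk]
    omega
  · intro b hb
    obtain ⟨b', rfl⟩ : ∃ z', b = rot z' := ⟨rot.symm b, (rot.apply_symm_apply b).symm⟩
    rw [mem_rotS] at hb
    have := hmax b' hb
    simp only [rot, Equiv.coe_fn_mk]
    omega

lemma col_le (B : Finset (ℤ × ℤ)) (c lo hi : ℤ) (hlo : ∀ b ∈ B, lo ≤ b.2) (hhi : ∀ b ∈ B, b.2 ≤ hi)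
    (h : lo ≤ hi + 1) : col B c ≤ hi - lo + 1 := by
  unfold col
  have h1 : (B.filter (fun b => b.1 = c)).card ≤ (Finset.Icc lo hi).card := by
    apply Finset.card_le_card_of_injOn (fun b => b.2)
    · intro b hb
      rw [Finset.mem_coe, Finset.mem_filter] at hb
      rw [Finset.mem_coe, Finset.mem_Icc]
      exact ⟨hlo b hb.1, hhi b hb.1⟩
    · intro b hb b' hb' hbb
      rw [Finset.mem_coe, Finset.mem_filter] at hb hb'
      exact Prod.ext (by rw [hb.2, hb'.2]) hbb
  rw [Int.card_Icc] at h1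
  omega

lemma row_le (B : Finset (ℤ × ℤ)) (y lo hi : ℤ) (hlo : ∀ b ∈ B, lo ≤ b.1) (hhi : ∀ b ∈ B, b.1 ≤ hi)
    (h : lo ≤ hi + 1) : row B y ≤ hi - lo + 1 := by
  unfold row
  have h1 : (B.filter (fun b => b.2 = y)).card ≤ (Finset.Icc lo hi).card := by
    apply Finset.card_le_card_of_injOn (fun b => b.1)
    · intro b hb
      rw [Finset.mem_coe, Finset.mem_filter] at hb
      rw [Finset.mem_coe, Finset.mem_Icc]
      exact ⟨hlo b hb.1, hhi b hb.1⟩
    · intro b hb b' hb' hbb
      rw [Finset.mem_coe, Finset.mem_filter] at hb hb'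
      exact Prod.ext hbb (by rw [hb.2, hb'.2])
  rw [Int.card_Icc] at h1
  omega

theorem not_irr (f g : ℤ) (B : Finset (ℤ × ℤ)) : ¬ Irr f g B := by
  intro hI
  obtain ⟨r1, hr1, hX1⟩ := Finset.exists_max_image B (fun b => b.1) hI.ne
  obtain ⟨r2, hr2, hY2⟩ := Finset.exists_max_image B (fun b => b.2) hI.ne
  obtain ⟨r3, hr3, hX3⟩ := Finset.exists_min_image B (fun b => b.1) hI.ne
  obtain ⟨r4, hr4, hY4⟩ := Finset.exists_min_image B (fun b => b.2) hI.ne
  have h1 := col_right hI r1.1 ⟨r1, hr1, rfl⟩ hX1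
  have h2 := row_top hI r2.2 ⟨r2, hr2, rfl⟩ hY2
  have h3 := col_left hI r3.1 ⟨r3, hr3, rfl⟩ hX3
  have h4 := row_bottom hI r4.2 ⟨r4, hr4, rfl⟩ hY4
  have hx : r3.1 ≤ r1.1 := hX3 _ hr1
  have hy : r4.2 ≤ r2.2 := hY4 _ hr2
  have k1 := col_le B r1.1 r4.2 r2.2 hY4 hY2 (by omega)
  have k3 := col_le B r3.1 r4.2 r2.2 hY4 hY2 (by omega)
  have k2 := row_le B r2.2 r3.1 r1.1 hX3 hX1 (by omega)
  have k4 := row_le B r4.2 r3.1 r1.1 hX3 hX1 (by omega)
  omega

/-- **The pinwheel lemma.** -/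
theorem two_good (f g : ℤ) (B : Finset (ℤ × ℤ)) : ∃ z z', z ≠ z' ∧ good f g B z ∧ good f g B z' := by
  induction hn : B.card using Nat.strong_induction_on generalizing B with
  | _ n ih =>
    rcases B.eq_empty_or_nonempty with hB | hB
    · subst hB
      have hok : ∀ x y : ℤ, f - 1 ≤ x + y → x + y ≤ f → g - 1 ≤ x - y → x - y ≤ g →
          good f g ∅ (x, y) := by
        intro x y h1 h2 h3 h4
        refine ⟨by simp, ?_, ?_, ?_, ?_⟩
        · simp only [sF, cS, cE, Finset.filter_empty, Finset.card_empty, Nat.cast_zero]; omega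
        · simp only [sG, cS, cW, Finset.filter_empty, Finset.card_empty, Nat.cast_zero]; omega
        · simp only [sH, cN, cE, Finset.filter_empty, Finset.card_empty, Nat.cast_zero]; omega
        · simp only [sK, cN, cW, Finset.filter_empty, Finset.card_empty, Nat.cast_zero]; omega
      rcases Int.emod_two_eq_zero_or_one (f + g) with h | h
      · refine ⟨((f + g) / 2, (f - g) / 2), ((f + g) / 2 - 1, (f - g) / 2), ?_, hok _ _ ?_ ?_ ?_ ?_,
          hok _ _ ?_ ?_ ?_ ?_⟩
        · intro h'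
          have := congrArg Prod.fst h'
          simp only at this
          omega
        all_goals omega
      · refine ⟨((f + g - 1) / 2, (f - g + 1) / 2), ((f + g - 1) / 2, (f - g + 1) / 2 - 1), ?_,
          hok _ _ ?_ ?_ ?_ ?_, hok _ _ ?_ ?_ ?_ ?_⟩
        · intro h'
          have := congrArg Prod.snd h'
          simp only at this
          omega
        all_goals omega
    · by_contra hcon
      have huniq : ∀ z z', good f g B z → good f g B z' → z = z' := by
        intro z z' h1 h2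
        by_contra hne
        exact hcon ⟨z, z', hne, h1, h2⟩
      -- good points of `B.erase b` other than `b` are good
      have hup : ∀ b ∈ B, ∀ z, z ≠ b → good f g (B.erase b) z → good f g B z := by
        intro b _ z hzb hz
        refine ⟨?_, ok_of_erase f g B b z hz.2⟩
        intro hzB
        exact hz.1 (Finset.mem_erase.2 ⟨hzb, hzB⟩)
      have hkey : ∀ b ∈ B, ok f g B b ∧ ∀ z, good f g B z → good f g (B.erase b) z := by
        intro b hb
        obtain ⟨z, z', hne, h1, h2⟩ := ih (B.erase b).card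
          (by rw [← hn]; exact Finset.card_erase_lt_of_mem hb) (B.erase b) rfl
        by_cases hzb : z = b
        · subst hzb
          have h2' := hup z hb z' (fun h => hne h.symm) h2
          refine ⟨ok_of_erase f g B z z h1.2, fun w hw => ?_⟩
          rw [huniq w z' hw h2']
          exact h2
        · have h1' := hup b hb z hzb h1
          by_cases hzb' : z' = b
          · subst hzb'
            refine ⟨ok_of_erase f g B z' z' h2.2, fun w hw => ?_⟩
            rw [huniq w z hw h1']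
            exact h1
          · exact absurd (huniq z z' h1' (hup b hb z' hzb' h2)) hne
      apply not_irr f g B
      refine ⟨hB, fun b hb => (hkey b hb).1, ?_, ?_, ?_, ?_, huniq⟩
      · intro z hz h1
        unfold cS at h1
        obtain ⟨b, hb⟩ : (B.filter (fun b => b.1 = z.1 ∧ b.2 < z.2)).Nonempty := by
          rw [← Finset.card_pos]; omega
        rw [Finset.mem_filter] at hb
        obtain ⟨_, g1, g2, g3, g4⟩ := (hkey b hb.1).2 z hz
        have e1 : cS (B.erase b) z + 1 = cS B z := card_filter_erase_of_mem B b _ hb.1 hb.2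
        have e2 : cE (B.erase b) z = cE B z := card_filter_erase_of_not B b _ (by omega)
        have e3 : cW (B.erase b) z = cW B z := card_filter_erase_of_not B b _ (by omega)
        unfold sF at g1 ⊢; unfold sG at g2 ⊢
        omega
      · intro z hz h1
        unfold cE at h1
        obtain ⟨b, hb⟩ : (B.filter (fun b => b.2 = z.2 ∧ z.1 < b.1)).Nonempty := by
          rw [← Finset.card_pos]; omega
        rw [Finset.mem_filter] at hb
        obtain ⟨_, g1, g2, g3, g4⟩ := (hkey b hb.1).2 z hz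
        have e1 : cE (B.erase b) z + 1 = cE B z := card_filter_erase_of_mem B b _ hb.1 hb.2
        have e2 : cS (B.erase b) z = cS B z := card_filter_erase_of_not B b _ (by omega)
        have e3 : cN (B.erase b) z = cN B z := card_filter_erase_of_not B b _ (by omega)
        unfold sF at g1 ⊢; unfold sH at g3 ⊢
        omega
      · intro z hz h1
        unfold cN at h1
        obtain ⟨b, hb⟩ : (B.filter (fun b => b.1 = z.1 ∧ z.2 < b.2)).Nonempty := by
          rw [← Finset.card_pos]; omega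
        rw [Finset.mem_filter] at hb
        obtain ⟨_, g1, g2, g3, g4⟩ := (hkey b hb.1).2 z hz
        have e1 : cN (B.erase b) z + 1 = cN B z := card_filter_erase_of_mem B b _ hb.1 hb.2
        have e2 : cE (B.erase b) z = cE B z := card_filter_erase_of_not B b _ (by omega)
        have e3 : cW (B.erase b) z = cW B z := card_filter_erase_of_not B b _ (by omega)
        unfold sH at g3 ⊢; unfold sK at g4 ⊢
        omega
      · intro z hz h1
        unfold cW at h1
        obtain ⟨b, hb⟩ : (B.filter (fun b => b.2 = z.2 ∧ b.1 < z.1)).Nonempty := by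
          rw [← Finset.card_pos]; omega
        rw [Finset.mem_filter] at hb
        obtain ⟨_, g1, g2, g3, g4⟩ := (hkey b hb.1).2 z hz
        have e1 : cW (B.erase b) z + 1 = cW B z := card_filter_erase_of_mem B b _ hb.1 hb.2
        have e2 : cS (B.erase b) z = cS B z := card_filter_erase_of_not B b _ (by omega)
        have e3 : cN (B.erase b) z = cN B z := card_filter_erase_of_not B b _ (by omega)
        unfold sG at g2 ⊢; unfold sK at g4 ⊢
        omega

end PoolAgent.Helper45.PW
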