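import Pool.Agent.Helper45.PW.Abs

/-!
# Two fields of counts on the integer lattice

`α i j` counts steep ascending lines on whose upper left side the cell `(i, j)` lies, `β i j` counts flat
descending lines on whose upper right side it lies.
-/

set_option autoImplicit false

namespace PoolAgent.Helper45.PW

open Finset

/-- the largest `p ≤ A` with `p ≤ α (i - p) (j + p)` -/
def PP (α : ℤ → ℤ → ℕ) (A : ℕ) (i j : ℤ) : ℕ := Nat.findGreatest (fun p => p ≤ α (i - p) (j + p)) A

/-- the largest `m ≤ A` with `m ≤ β (i + m) (j + m)` -/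
def MM (β : ℤ → ℤ → ℕ) (A : ℕ) (i j : ℤ) : ℕ := Nat.findGreatest (fun m => m ≤ β (i + m) (j + m)) A

/-- The monotonicity properties of the counts. -/
structure Fld (α β : ℤ → ℤ → ℕ) (A Bn : ℕ) : Prop where
  aA : ∀ i j, α i j ≤ A
  bB : ∀ i j, β i j ≤ Bn
  a1 : ∀ i j, α i j ≤ α (i - 1) (j + 1)
  a2 : ∀ i j, α (i + 1) (j + 1) ≤ α i j
  a3 : ∀ i j, α i j ≤ α i (j + 2)
  b1 : ∀ i j, β i j ≤ β (i + 1) (j + 1)
  b2 : ∀ i j, β i j ≤ β (i - 1) (j + 1)
  b3 : ∀ i j, β i j ≤ β (i + 2) j

variable {α β : ℤ → ℤ → ℕ} {A Bn : ℕ}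

lemma PP_le (i j : ℤ) : PP α A i j ≤ A := Nat.findGreatest_le _

lemma MM_le (i j : ℤ) : MM β Bn i j ≤ Bn := Nat.findGreatest_le _

lemma PP_spec (i j : ℤ) : PP α A i j ≤ α (i - PP α A i j) (j + PP α A i j) := by
  have := Nat.findGreatest_spec (P := fun p : ℕ => p ≤ α (i - p) (j + p)) (n := A) (m := 0)
    (Nat.zero_le _) (Nat.zero_le _)
  exact this

lemma MM_spec (i j : ℤ) : MM β Bn i j ≤ β (i + MM β Bn i j) (j + MM β Bn i j) := by
  have := Nat.findGreatest_spec (P := fun p : ℕ => p ≤ β (i + p) (j + p)) (n := Bn) (m := 0)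
    (Nat.zero_le _) (Nat.zero_le _)
  exact this

lemma PP_eq (h : Fld α β A Bn) (i j : ℤ) : α (i - PP α A i j) (j + PP α A i j) = PP α A i j ∧
    α (i - PP α A i j - 1) (j + PP α A i j + 1) = PP α A i j := by
  have h1 := PP_spec (α := α) (A := A) i j
  have h2 := h.a1 (i - PP α A i j) (j + PP α A i j)
  have h3 : α (i - PP α A i j - 1) (j + PP α A i j + 1) ≤ PP α A i j := by
    by_cases hc : PP α A i j + 1 ≤ A
    · have := Nat.findGreatest_is_greatest (P := fun p : ℕ => p ≤ α (i - p) (j + p)) (n := A)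
        (k := PP α A i j + 1) (Nat.lt_succ_self _) hc
      simp only [not_le] at this
      have e1 : i - ((PP α A i j + 1 : ℕ) : ℤ) = i - PP α A i j - 1 := by push_cast; ring
      have e2 : j + ((PP α A i j + 1 : ℕ) : ℤ) = j + PP α A i j + 1 := by push_cast; ring
      rw [e1, e2] at this
      omega
    · have := h.aA (i - PP α A i j - 1) (j + PP α A i j + 1)
      omega
  omega

lemma MM_eq (h : Fld α β A Bn) (i j : ℤ) : β (i + MM β Bn i j) (j + MM β Bn i j) = MM β Bn i j ∧
    β (i + MM β Bn i j + 1) (j + MM β Bn i j + 1) = MM β Bn i j := by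
  have h1 := MM_spec (β := β) (Bn := Bn) i j
  have h2 := h.b1 (i + MM β Bn i j) (j + MM β Bn i j)
  have h3 : β (i + MM β Bn i j + 1) (j + MM β Bn i j + 1) ≤ MM β Bn i j := by
    by_cases hc : MM β Bn i j + 1 ≤ Bn
    · have := Nat.findGreatest_is_greatest (P := fun p : ℕ => p ≤ β (i + p) (j + p)) (n := Bn)
        (k := MM β Bn i j + 1) (Nat.lt_succ_self _) hc
      simp only [not_le] at this
      have e1 : i + ((MM β Bn i j + 1 : ℕ) : ℤ) = i + MM β Bn i j + 1 := by push_cast; ring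
      have e2 : j + ((MM β Bn i j + 1 : ℕ) : ℤ) = j + MM β Bn i j + 1 := by push_cast; ring
      rw [e1, e2] at this
      omega
    · have := h.bB (i + MM β Bn i j + 1) (j + MM β Bn i j + 1)
      omega
  omega

lemma PP_anti (h : Fld α β A Bn) (i j s t : ℤ) (hst : s ≤ t) :
    PP α A (i + t) (j + t) ≤ PP α A (i + s) (j + s) := by
  have : Antitone fun t : ℤ => PP α A (i + t) (j + t) := by
    apply antitone_int_of_succ_le
    intro t
    apply Nat.findGreatest_mono_left
    intro p hp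
    refine le_trans hp ?_
    have := h.a2 (i + t - p) (j + t + p)
    have e1 : i + t - p + 1 = i + (t + 1) - p := by ring
    have e2 : j + t + p + 1 = j + (t + 1) + p := by ring
    rw [e1, e2] at this
    exact this
  exact this hst

lemma MM_mono (h : Fld α β A Bn) (i j s t : ℤ) (hst : s ≤ t) :
    MM β Bn (i - s) (j + s) ≤ MM β Bn (i - t) (j + t) := by
  have : Monotone fun t : ℤ => MM β Bn (i - t) (j + t) := by
    apply monotone_int_of_le_succ
    intro t
    apply Nat.findGreatest_mono_left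
    intro p hp
    refine le_trans hp ?_
    have := h.b2 (i - t + p) (j + t + p)
    have e1 : i - t + p - 1 = i - (t + 1) + p := by ring
    have e2 : j + t + p + 1 = j + (t + 1) + p := by ring
    rw [e1, e2] at this
    exact this
  exact this hst

lemma PP_up (h : Fld α β A Bn) (i j : ℤ) : PP α A i j ≤ PP α A i (j + 2) := by
  apply Nat.findGreatest_mono_left
  intro p hp
  refine le_trans hp ?_
  have := h.a3 (i - p) (j + p)
  have e2 : j + p + 2 = j + 2 + (p : ℤ) := by ring
  rw [e2] at this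
  exact this

lemma MM_right (h : Fld α β A Bn) (i j : ℤ) : MM β Bn i j ≤ MM β Bn (i + 2) j := by
  apply Nat.findGreatest_mono_left
  intro p hp
  refine le_trans hp ?_
  have := h.b3 (i + p) (j + p)
  have e2 : i + p + 2 = i + 2 + (p : ℤ) := by ring
  rw [e2] at this
  exact this

/-- The data of a start point. -/
structure Dat (α β : ℤ → ℤ → ℕ) (A Bn : ℕ) (i j p m d : ℤ) : Prop where
  p0 : 0 ≤ p
  m0 : 0 ≤ m
  d01 : d = 0 ∨ d = 1
  hP : p + d ≤ PP α A (i + m) (j + m)
  hP' : (PP α A (i + (m + d)) (j + (m + d)) : ℤ) ≤ p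
  hM : (MM β Bn (i - p) (j + p) : ℤ) ≤ m
  hM' : m + d ≤ MM β Bn (i - (p + d)) (j + (p + d))

lemma exists_dat (h : Fld α β A Bn) (i j : ℤ) : ∃ p m d, Dat α β A Bn i j p m d := by
  classical
  set f : ℕ → ℕ := fun m => PP α A (i + m) (j + m) with hf
  set g : ℕ → ℕ := fun p => MM β Bn (i - p) (j + p) with hg
  have hfa : ∀ s t : ℕ, s ≤ t → f t ≤ f s := fun s t hst => PP_anti h i j s t (by exact_mod_cast hst)
  have hga : ∀ s t : ℕ, s ≤ t → g s ≤ g t := fun s t hst => MM_mono h i j s t (by exact_mod_cast hst)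
  set m0 := Nat.findGreatest (fun m => m ≤ g (f m)) Bn with hm0
  have h1 : m0 ≤ g (f m0) := by
    have := Nat.findGreatest_spec (P := fun m => m ≤ g (f m)) (n := Bn) (m := 0)
      (Nat.zero_le _) (Nat.zero_le _)
    exact this
  rcases Nat.eq_or_lt_of_le h1 with h2 | h2
  · refine ⟨f m0, m0, 0, ?_, ?_, Or.inl rfl, ?_, ?_, ?_, ?_⟩
    · positivity
    · positivity
    · simp only [hf]; simp
    · simp only [hf]; simp
    · have : MM β Bn (i - (f m0 : ℤ)) (j + (f m0 : ℤ)) = m0 := h2.symm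
      rw [this]
    · have : MM β Bn (i - (f m0 : ℤ)) (j + (f m0 : ℤ)) = m0 := h2.symm
      rw [add_zero, add_zero, this]
  · have hle : g (f m0) ≤ Bn := MM_le _ _
    have h3 : ¬ (m0 + 1 ≤ g (f (m0 + 1))) :=
      Nat.findGreatest_is_greatest (P := fun m => m ≤ g (f m)) (n := Bn) (k := m0 + 1)
        (Nat.lt_succ_self _) (by omega)
    have hex : ∃ t, m0 + 1 ≤ g t := ⟨f m0, h2⟩
    have ht := Nat.find_spec hex
    have htle : Nat.find hex ≤ f m0 := Nat.find_min' hex h2
    have htgt : f (m0 + 1) < Nat.find hex := by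
      by_contra hcon
      rw [not_lt] at hcon
      have := hga _ _ hcon
      omega
    have hmin := Nat.find_min hex (m := Nat.find hex - 1) (by omega)
    rw [not_le] at hmin
    set t := Nat.find hex with htdef
    refine ⟨((t - 1 : ℕ) : ℤ), m0, 1, by positivity, by positivity, Or.inr rfl, ?_, ?_, ?_, ?_⟩
    · have : PP α A (i + (m0 : ℤ)) (j + (m0 : ℤ)) = f m0 := rfl
      rw [this]
      omega
    · have : PP α A (i + ((m0 : ℤ) + 1)) (j + ((m0 : ℤ) + 1)) = f (m0 + 1) := by
        simp only [hf]; push_cast; rfl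
      rw [this]
      omega
    · have : MM β Bn (i - ((t - 1 : ℕ) : ℤ)) (j + ((t - 1 : ℕ) : ℤ)) = g (t - 1) := rfl
      rw [this]
      omega
    · have e : ((t - 1 : ℕ) : ℤ) + 1 = t := by omega
      rw [e]
      have : MM β Bn (i - (t : ℤ)) (j + (t : ℤ)) = g t := rfl
      rw [this]
      exact_mod_cast ht

lemma rel_up (h : Fld α β A Bn) {i j p m d p' m' d' : ℤ} (h1 : Dat α β A Bn i j p m d)
    (h2 : Dat α β A Bn (i + 1) (j + 1) p' m' d') : p' + d' ≤ p := by
  by_contra hcon
  rw [not_le] at hcon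
  have hm : 1 + m' < m + d := by
    by_contra hc
    rw [not_lt] at hc
    have e := PP_anti h i j (m + d) (1 + m') hc
    have e1 := h1.hP'
    have e2 := h2.hP
    have e3 : i + 1 + m' = i + (1 + m') := by ring
    have e4 : j + 1 + m' = j + (1 + m') := by ring
    rw [e3, e4] at e2
    omega
  have hp : p' + 1 < p + d := by
    by_contra hc
    rw [not_lt] at hc
    have e := MM_mono h i j (p + d) (p' + 1) hc
    have e1 := h1.hM'
    have e2 := h2.hM
    have e3 := MM_right h (i - (p' + 1)) (j + (p' + 1))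
    have e4 : i - (p' + 1) + 2 = i + 1 - p' := by ring
    have e5 : j + (p' + 1) = j + 1 + p' := by ring
    rw [e4] at e3
    rw [e5] at e3 e
    omega
  rcases h1.d01 with h3 | h3 <;> rcases h2.d01 with h4 | h4 <;> omega

lemma rel_left (h : Fld α β A Bn) {i j p m d p' m' d' : ℤ} (h1 : Dat α β A Bn i j p m d)
    (h2 : Dat α β A Bn (i - 1) (j + 1) p' m' d') : m + d ≤ m' := by
  by_contra hcon
  rw [not_le] at hcon
  have hp : 1 + p' < p + d := by
    by_contra hc
    rw [not_lt] at hc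
    have e := MM_mono h i j (p + d) (1 + p') hc
    have e1 := h1.hM'
    have e2 := h2.hM
    have e4 : i - 1 - p' = i - (1 + p') := by ring
    have e5 : j + 1 + p' = j + (1 + p') := by ring
    rw [e4, e5] at e2
    omega
  have hm : m + 1 < m' + d' := by
    by_contra hc
    rw [not_lt] at hc
    have e := PP_anti h (i - 1) (j + 1) (m' + d') (m + 1) hc
    have e1 := h1.hP
    have e2 := h2.hP'
    have e3 := PP_up h (i + m) (j + m)
    have e4 : i + m = i - 1 + (m + 1) := by ring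
    have e5 : j + m + 2 = j + 1 + (m + 1) := by ring
    rw [e5, e4] at e3
    rw [e4] at e1
    have e6 : (PP α A (i - 1 + (m + 1)) (j + m) : ℤ) ≤ PP α A (i - 1 + (m + 1)) (j + 1 + (m + 1)) := by
      exact_mod_cast e3
    omega
  rcases h1.d01 with h3 | h3 <;> rcases h2.d01 with h4 | h4 <;> omega

lemma cnt_le (T : Finset (ℤ × ℤ)) (φ : ℤ × ℤ → ℤ) (N : ℤ) (hN : 0 ≤ N) (h0 : ∀ b ∈ T, 0 ≤ φ b)
    (h1 : ∀ b ∈ T, φ b < N) (hinj : ∀ b ∈ T, ∀ b' ∈ T, φ b = φ b' → b = b') : (T.card : ℤ) ≤ N := by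
  have h : T.card ≤ (Finset.Ico 0 N).card := by
    apply Finset.card_le_card_of_injOn φ
    · intro b hb
      rw [Finset.mem_coe, Finset.mem_Ico]
      exact ⟨h0 b hb, h1 b hb⟩
    · intro b hb b' hb' hbb
      exact hinj b hb b' hb' hbb
  rw [Int.card_Ico] at h
  omega

/-- **Two free cells in each colour class.** -/
theorem grid (h : Fld α β A Bn) (g : ℤ) (hg : g = 0 ∨ g = 1) : ∃ q q' : ℤ × ℤ, q ≠ q' ∧
    ∀ r, (r = q ∨ r = q') → (0 ≤ r.1 ∧ r.1 ≤ A + Bn + 1 ∧ 0 ≤ r.2 ∧ r.2 ≤ A + Bn + 1 ∧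
      (r.1 + r.2 - A - g) % 2 = 0 ∧ α r.1 r.2 = α (r.1 - 1) (r.2 + 1) ∧ β r.1 r.2 = β (r.1 + 1) (r.2 + 1)) := by
  classical
  have hdat : ∀ z : ℤ × ℤ, ∃ t : ℤ × ℤ × ℤ,
      Dat α β A Bn (A + g + z.2 - z.1) (z.1 + z.2) t.1 t.2.1 t.2.2 := by
    intro z
    obtain ⟨p, m, d, hd⟩ := exists_dat h (A + g + z.2 - z.1) (z.1 + z.2)
    exact ⟨(p, m, d), hd⟩
  choose D hD using hdat
  set p : ℤ × ℤ → ℤ := fun z => (D z).1 with hp
  set m : ℤ × ℤ → ℤ := fun z => (D z).2.1 with hm
  set d : ℤ × ℤ → ℤ := fun z => (D z).2.2 with hd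
  have hDat : ∀ x y : ℤ, Dat α β A Bn (A + g + y - x) (x + y) (p (x, y)) (m (x, y)) (d (x, y)) :=
    fun x y => hD (x, y)
  have hup : ∀ x y : ℤ, p (x, y + 1) + d (x, y + 1) ≤ p (x, y) := by
    intro x y
    have h1 := hDat x y
    have h2 := hDat x (y + 1)
    have e1 : (A : ℤ) + g + (y + 1) - x = A + g + y - x + 1 := by ring
    have e2 : x + (y + 1) = x + y + 1 := by ring
    rw [e1, e2] at h2
    exact rel_up h h1 h2
  have hleft : ∀ x y : ℤ, m (x, y) + d (x, y) ≤ m (x + 1, y) := by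
    intro x y
    have h1 := hDat x y
    have h2 := hDat (x + 1) y
    have e1 : (A : ℤ) + g + y - (x + 1) = A + g + y - x - 1 := by ring
    have e2 : x + 1 + y = x + y + 1 := by ring
    rw [e1, e2] at h2
    exact rel_left h h1 h2
  have hd01 : ∀ x y : ℤ, d (x, y) = 0 ∨ d (x, y) = 1 := fun x y => (hDat x y).d01
  have hpanti : ∀ x s t : ℤ, s ≤ t → p (x, t) ≤ p (x, s) := by
    intro x s t hst
    have : Antitone fun y : ℤ => p (x, y) := by
      apply antitone_int_of_succ_le
      intro y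
      have := hup x y
      rcases hd01 x (y + 1) with h3 | h3 <;> omega
    exact this hst
  have hmmono : ∀ y s t : ℤ, s ≤ t → m (s, y) ≤ m (t, y) := by
    intro y s t hst
    have : Monotone fun x : ℤ => m (x, y) := by
      apply monotone_int_of_le_succ
      intro x
      have := hleft x y
      rcases hd01 x y with h3 | h3 <;> omega
    exact this hst
  have hpA : ∀ x y : ℤ, p (x, y) + d (x, y) ≤ A := by
    intro x y
    have h1 := (hDat x y).hP
    have h2 : PP α A (A + g + y - x + m (x, y)) (x + y + m (x, y)) ≤ A := PP_le _ _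
    omega
  have hmB : ∀ x y : ℤ, m (x, y) + d (x, y) ≤ Bn := by
    intro x y
    have h1 := (hDat x y).hM'
    have h2 : MM β Bn (A + g + y - x - (p (x, y) + d (x, y))) (x + y + (p (x, y) + d (x, y))) ≤ Bn :=
      MM_le _ _
    omega
  have hp0 : ∀ x y : ℤ, 0 ≤ p (x, y) := fun x y => (hDat x y).p0
  have hm0 : ∀ x y : ℤ, 0 ≤ m (x, y) := fun x y => (hDat x y).m0
  -- strict steps at the points of the set
  have hpstr : ∀ x s t : ℤ, s < t → d (x, t) = 1 → p (x, t) + 1 ≤ p (x, s) := by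
    intro x s t hst h1
    have h2 := hup x (t - 1)
    have h3 := hpanti x s (t - 1) (by omega)
    rw [sub_add_cancel] at h2
    omega
  have hpstr' : ∀ x s t : ℤ, s < t → p (x, t) + d (x, t) ≤ p (x, s) := by
    intro x s t hst
    have h2 := hup x (t - 1)
    have h3 := hpanti x s (t - 1) (by omega)
    rw [sub_add_cancel] at h2
    omega
  have hmstr : ∀ y s t : ℤ, s < t → m (s, y) + d (s, y) ≤ m (t, y) := by
    intro y s t hst
    have h2 := hleft s y
    have h3 := hmmono y (s + 1) t (by omega)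
    omega
  set L : ℤ := A + Bn + 2 with hL
  set B : Finset (ℤ × ℤ) := ((Finset.Icc (-L) L) ×ˢ (Finset.Icc (-L) L)).filter (fun z => d z = 1) with hB
  have hBd : ∀ b ∈ B, d b = 1 := fun b hb => (Finset.mem_filter.1 hb).2
  have bN : ∀ x y : ℤ, cN B (x, y) ≤ p (x, y) := by
    intro x y
    unfold cN
    apply cnt_le _ p _ (hp0 x y)
    · rintro ⟨u, v⟩ _
      exact hp0 u v
    · rintro ⟨u, v⟩ hb
      simp only [Finset.mem_filter] at hb
      obtain ⟨h1, h2, h3⟩ := hb
      subst h2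
      have := hpstr u y v h3 (hBd _ h1)
      omega
    · rintro ⟨u, v⟩ hb ⟨u', v'⟩ hb' hbb
      simp only [Finset.mem_filter] at hb hb'
      obtain ⟨h1, h2, h3⟩ := hb
      obtain ⟨h1', h2', h3'⟩ := hb'
      subst h2; subst h2'
      rcases lt_trichotomy v v' with h4 | h4 | h4
      · have := hpstr _ v v' h4 (hBd _ h1'); omega
      · rw [h4]
      · have := hpstr _ v' v h4 (hBd _ h1); omega
  have bS : ∀ x y : ℤ, cS B (x, y) ≤ A - p (x, y) - d (x, y) := by
    intro x y
    unfold cS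
    apply cnt_le _ (fun b => A - p b - d b) _ (by have := hpA x y; omega)
    · rintro ⟨u, v⟩ _
      have := hpA u v
      omega
    · rintro ⟨u, v⟩ hb
      simp only [Finset.mem_filter] at hb
      obtain ⟨h1, h2, h3⟩ := hb
      subst h2
      have e1 := hpstr' u v y h3
      have e2 := hBd _ h1
      omega
    · rintro ⟨u, v⟩ hb ⟨u', v'⟩ hb' hbb
      simp only [Finset.mem_filter] at hb hb'
      obtain ⟨h1, h2, h3⟩ := hb
      obtain ⟨h1', h2', h3'⟩ := hb'
      subst h2; subst h2'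
      have e1 := hBd _ h1
      have e2 := hBd _ h1'
      rcases lt_trichotomy v v' with h4 | h4 | h4
      · have := hpstr _ v v' h4 (hBd _ h1'); omega
      · rw [h4]
      · have := hpstr _ v' v h4 (hBd _ h1); omega
  have bW : ∀ x y : ℤ, cW B (x, y) ≤ m (x, y) := by
    intro x y
    unfold cW
    apply cnt_le _ m _ (hm0 x y)
    · rintro ⟨u, v⟩ _
      exact hm0 u v
    · rintro ⟨u, v⟩ hb
      simp only [Finset.mem_filter] at hb
      obtain ⟨h1, h2, h3⟩ := hb
      subst h2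
      have e1 := hmstr v u x h3
      have e2 := hBd _ h1
      omega
    · rintro ⟨u, v⟩ hb ⟨u', v'⟩ hb' hbb
      simp only [Finset.mem_filter] at hb hb'
      obtain ⟨h1, h2, h3⟩ := hb
      obtain ⟨h1', h2', h3'⟩ := hb'
      subst h2; subst h2'
      have e1 := hBd _ h1
      have e2 := hBd _ h1'
      rcases lt_trichotomy u u' with h4 | h4 | h4
      · have := hmstr v' u u' h4; omega
      · rw [h4]
      · have := hmstr v' u' u h4; omega
  have bE : ∀ x y : ℤ, cE B (x, y) ≤ Bn - m (x, y) - d (x, y) := by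
    intro x y
    unfold cE
    apply cnt_le _ (fun b => Bn - m b - d b) _ (by have := hmB x y; omega)
    · rintro ⟨u, v⟩ _
      have := hmB u v
      omega
    · rintro ⟨u, v⟩ hb
      simp only [Finset.mem_filter] at hb
      obtain ⟨h1, h2, h3⟩ := hb
      subst h2
      have e1 := hmstr v x u h3
      have e2 := hBd _ h1
      omega
    · rintro ⟨u, v⟩ hb ⟨u', v'⟩ hb' hbb
      simp only [Finset.mem_filter] at hb hb'
      obtain ⟨h1, h2, h3⟩ := hb
      obtain ⟨h1', h2', h3'⟩ := hb'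
      subst h2; subst h2'
      have e1 := hBd _ h1
      have e2 := hBd _ h1'
      rcases lt_trichotomy u u' with h4 | h4 | h4
      · have := hmstr v' u u' h4; omega
      · rw [h4]
      · have := hmstr v' u' u h4; omega
  -- a good point gives a free cell
  have hgoodcell : ∀ x y : ℤ, good 1 g B (x, y) → d (x, y) = 0 ∧
      0 ≤ A + g + y - x + m (x, y) - p (x, y) ∧ A + g + y - x + m (x, y) - p (x, y) ≤ A + Bn + 1 ∧
      0 ≤ x + y + m (x, y) + p (x, y) ∧ x + y + m (x, y) + p (x, y) ≤ A + Bn + 1 := by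
    intro x y hgd
    obtain ⟨hnB, g1, g2, g3, g4⟩ := hgd
    unfold sF at g1; unfold sG at g2; unfold sH at g3; unfold sK at g4
    simp only at g1 g2 g3 g4
    have k1 := bN x y
    have k2 := bS x y
    have k3 := bE x y
    have k4 := bW x y
    have k5 := hp0 x y
    have k6 := hm0 x y
    have k7 := hpA x y
    have k8 := hmB x y
    have hd0 : d (x, y) = 0 := by
      rcases hd01 x y with h0 | h0
      · exact h0
      · exfalso
        apply hnB
        rw [hB, Finset.mem_filter, Finset.mem_product, Finset.mem_Icc, Finset.mem_Icc]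
        refine ⟨⟨⟨?_, ?_⟩, ?_, ?_⟩, h0⟩ <;> simp only <;> omega
    refine ⟨hd0, ?_, ?_, ?_, ?_⟩ <;> omega
  obtain ⟨z, z', hne, hz, hz'⟩ := two_good 1 g B
  have hcell : ∀ x y : ℤ, d (x, y) = 0 → 
      (PP α A (A + g + y - x + m (x, y)) (x + y + m (x, y)) : ℤ) = p (x, y) ∧
      (MM β Bn (A + g + y - x - p (x, y)) (x + y + p (x, y)) : ℤ) = m (x, y) := by
    intro x y h0
    have h1 := hDat x y
    have e1 := h1.hP
    have e2 := h1.hP'
    have e3 := h1.hM
    have e4 := h1.hM'
    rw [h0] at e1 e2 e4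
    simp only [add_zero] at e1 e2 e4
    constructor <;> omega
  have hfree : ∀ x y : ℤ, d (x, y) = 0 →
      (α (A + g + y - x + m (x, y) - p (x, y)) (x + y + m (x, y) + p (x, y)) : ℤ) = p (x, y) ∧
      (α (A + g + y - x + m (x, y) - p (x, y) - 1) (x + y + m (x, y) + p (x, y) + 1) : ℤ) = p (x, y) ∧
      (β (A + g + y - x + m (x, y) - p (x, y)) (x + y + m (x, y) + p (x, y)) : ℤ) = m (x, y) ∧
      (β (A + g + y - x + m (x, y) - p (x, y) + 1) (x + y + m (x, y) + p (x, y) + 1) : ℤ) = m (x, y) := by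
    intro x y h0
    obtain ⟨c1, c2⟩ := hcell x y h0
    have e1 := PP_eq h (A + g + y - x + m (x, y)) (x + y + m (x, y))
    rw [c1] at e1
    have e2 := MM_eq h (A + g + y - x - p (x, y)) (x + y + p (x, y))
    rw [c2] at e2
    have e3 : (A : ℤ) + g + y - x - p (x, y) + m (x, y) = A + g + y - x + m (x, y) - p (x, y) := by ring
    have e4 : x + y + p (x, y) + m (x, y) = x + y + m (x, y) + p (x, y) := by ring
    rw [e3, e4] at e2
    refine ⟨?_, ?_, ?_, ?_⟩ <;> omega
  refine ⟨(A + g + z.2 - z.1 + m z - p z, z.1 + z.2 + m z + p z),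
    (A + g + z'.2 - z'.1 + m z' - p z', z'.1 + z'.2 + m z' + p z'), ?_, ?_⟩
  · intro heq
    apply hne
    obtain ⟨x, y⟩ := z
    obtain ⟨x', y'⟩ := z'
    have d0 := (hgoodcell x y hz).1
    have d0' := (hgoodcell x' y' hz').1
    have f1 := hfree x y d0
    have f2 := hfree x' y' d0'
    have h1 := congrArg Prod.fst heq
    have h2 := congrArg Prod.snd heq
    simp only at h1 h2
    have hpp : p (x, y) = p (x', y') := by
      rw [← f1.1, ← f2.1, h1, h2]
    have hmm : m (x, y) = m (x', y') := by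
      rw [← f1.2.2.1, ← f2.2.2.1, h1, h2]
    ext
    · simp only; omega
    · simp only; omega
  · have hone : ∀ z : ℤ × ℤ, good 1 g B z → ∀ r : ℤ × ℤ,
        r = (A + g + z.2 - z.1 + m z - p z, z.1 + z.2 + m z + p z) →
        (0 ≤ r.1 ∧ r.1 ≤ A + Bn + 1 ∧ 0 ≤ r.2 ∧ r.2 ≤ A + Bn + 1 ∧
        (r.1 + r.2 - A - g) % 2 = 0 ∧ α r.1 r.2 = α (r.1 - 1) (r.2 + 1) ∧
        β r.1 r.2 = β (r.1 + 1) (r.2 + 1)) := by
      rintro ⟨x, y⟩ hz r rfl
      obtain ⟨d0, b1, b2, b3, b4⟩ := hgoodcell x y hz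
      obtain ⟨f1, f2, f3, f4⟩ := hfree x y d0
      simp only
      refine ⟨b1, b2, b3, b4, ?_, ?_, ?_⟩
      · have : (A : ℤ) + g + y - x + m (x, y) - p (x, y) + (x + y + m (x, y) + p (x, y)) - A - g =
          2 * (y + m (x, y)) := by ring
        rw [this]
        simp
      · omega
      · omega
    rintro r (hr | hr)
    · exact hone z hz r hr
    · exact hone z' hz' r hr

end PoolAgent.Helper45.PW
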